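import Pool.Agent.H437.KT.Main

/-!
# K3 surfaces defined by norms from three quadratic fields

Let `(χ, ψ)` be an admissible pair of quadratic characters modulo the primes `p`, `q`: `p ≠ q` are
congruent to `1` modulo `4` and squares modulo each other.  Let `K_none = ℚ(√p)`,
`K_{some 0} = ℚ(√q)`, `K_{some 1} = ℚ(√pq)`, `θ_j` a generator of `K_j` with minimal polynomial `P_j`
and `N_j` the norm from `K_j`.  Let `k` be a number field and `a ∈ k^*`.

* Double planes: `a w² = ∏_j N_j(L_j(x, y, z))` for any three linear forms `L_j` over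
  `k ⊗ K_j = k[X]/(P_j)`.  If the six lines are in general position, then the smooth projective model
  `X` is a K3 surface.
* Quartics: `∏_{j ≠ g} N_j(L_j(x)) = a N_g(Q(x))` in `P³`, for any two linear forms `L_j` and any
  quadratic form `Q`.  Smooth surfaces of this type are K3 surfaces.

The class `A = (N_{some 1}(·), p)` is unramified.  We compute the sum of its local invariants on all
adelic points over all number fields `L ⊇ k`: it is `[L : k]` times the number of prime numbers `r`
that are not squares modulo `p` and modulo `q`, counted with the multiplicities `v_r(N a)`.  If this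
number is odd (that is, `a` is obstructed), then over all `L` of odd degree over `k` no adelic point is
orthogonal to `A`, so the Brauer-Manin set is empty, `X(L)` is empty and is dense in it.  The
double planes with the lines `x - θ_j z + c_j y` and the quartics with the forms `x - θ_j z + c_j t`,
`y (x - θ_g z) + t M(x, y, z, t)` have points over all completions of all number fields, for arbitrary
`c_j` and `M`.
-/

set_option autoImplicit false

open Polynomial

namespace Pool.Agent.Results.MP_ed3816_nt.NormK3Surfaces

open Pool.Agent.H437.NF Pool.Agent.H437.KT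
open Pool.Agent.Results.MP_308fa9_nt.SuperellipticBrauerSets

universe u

section statements

variable {p q : ℕ} [Fact p.Prime] [Fact q.Prime]
  (θ : Option (ZMod 2) → CyclotomicField (p * q) ℚ) {k : Type u} [Field k] [NumberField k] (a : k)
  (c : Option (ZMod 2) → Fin 3 → k[X]) (F : Option (ZMod 2) → MvPolynomial (Fin 4) k[X])
  (g : Option (ZMod 2))

/-- The points over the extension `E` of `k` of the double plane `a w² = ∏_j N_j(L_j(x, y, z))`,
`w ≠ 0`; `c` gives the coefficients of the linear forms `L_j`. -/
abbrev Plane {E : Type u} [Field E] (ι : k →+* E) : Type u :=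
  PlanePoint a (fun j => minpoly ℚ (θ j)) c ι

/-- The points over the extension `E` of `k` of the surface `∏_{j ≠ g} N_j(F_j(x)) = a N_g(F_g(x))`
in `P³`, `F_g ≠ 0`. -/
abbrev Quartic {E : Type u} [Field E] (ι : k →+* E) : Type u :=
  QuarticPoint a (fun j => minpoly ℚ (θ j)) F g ι

/-- The residue field of the local ring `O ⊇ k` contains a root of the polynomial `P`. -/
def ResidueRoot (k : Type u) [Field k] [CharZero k] (O : Type u) [CommRing O] [IsLocalRing O]
    [Algebra k O] (P : ℚ[X]) : Prop :=
  ∃ y : IsLocalRing.ResidueField O,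
    eval₂ (((IsLocalRing.residue O).comp (algebraMap k O)).comp (algebraMap ℚ k)) y P = 0

/-- The value `b` is a unit of `O` times a square, or the residue field contains `√p`: the residue of
`(b, p)` is trivial. -/
def TrivialResidue (O K : Type u) [CommRing O] [IsDomain O] [ValuationRing O] [Field K]
    [Algebra O K] [Algebra k O] (b : K) : Prop :=
  (∃ (e : Oˣ) (d : K), b = algebraMap O K e * d ^ 2) ∨ ResidueRoot k O (minpoly ℚ (θ none))

/-- The class `A` is unramified on the double plane: it has trivial residues at all valuation rings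
`O ⊇ k` and all points over the fields of fractions. -/
def PlaneUnramified : Prop :=
  ∀ (O K : Type u) [CommRing O] [IsDomain O] [ValuationRing O] [Field K] [Algebra O K]
    [IsFractionRing O K] [Algebra k O] [Algebra k K] [IsScalarTower k O K]
    (z : Plane θ a c (algebraMap k K)), TrivialResidue θ (k := k) O K (z.value (some 1))

/-- The class `A` is unramified on the quartic surface. -/
def QuarticUnramified : Prop :=
  ∀ (O K : Type u) [CommRing O] [IsDomain O] [ValuationRing O] [Field K] [Algebra O K]
    [IsFractionRing O K] [Algebra k O] [Algebra k K] [IsScalarTower k O K]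
    (z : Quartic θ a F g (algebraMap k K)), TrivialResidue θ (k := k) O K (z.value (some 1))

variable (L : Type u) [Field L] [NumberField L] [Algebra k L]

/-- The families of points of the double plane over the completions of `L` at the finite places. -/
abbrev AdelicPlane : Type u := ∀ v : FinitePlace L, Plane θ a c ((embedding v).comp (algebraMap k L))

/-- The families of points of the quartic over the completions of `L` at the finite places. -/
abbrev AdelicQuartic : Type u :=
  ∀ v : FinitePlace L, Quartic θ a F g ((embedding v).comp (algebraMap k L))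

variable {θ a c F g L} in
/-- The sum of the local invariants of `A`, multiplied by `2`. -/
noncomputable def planePairing (χ : (ZMod p)ˣ →* Multiplicative (ZMod 2))
    (z : AdelicPlane θ a c L) : ZMod 2 :=
  ∑ᶠ v, invariantAt χ v ((z v).value (some 1))

variable {θ a c F g L} in
/-- The sum of the local invariants of `A`, multiplied by `2`. -/
noncomputable def quarticPairing (χ : (ZMod p)ˣ →* Multiplicative (ZMod 2))
    (z : AdelicQuartic θ a F g L) : ZMod 2 :=
  ∑ᶠ v, invariantAt χ v ((z v).value (some 1))

/-- The pairing of the adelic points over `L` with `A` is `[L : k]` times the invariant of `N(a)`. -/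
def PlaneFormula (χ : (ZMod p)ˣ →* Multiplicative (ZMod 2))
    (ψ : (ZMod q)ˣ →* Multiplicative (ZMod 2)) : Prop :=
  ∀ z : AdelicPlane θ a c L, {v | invariantAt χ v ((z v).value (some 1)) ≠ 0}.Finite ∧
    planePairing χ z = Module.finrank k L * invariant χ ψ 1 (Algebra.norm ℚ a)

/-- The same for the quartic surface. -/
def QuarticFormula (χ : (ZMod p)ˣ →* Multiplicative (ZMod 2))
    (ψ : (ZMod q)ˣ →* Multiplicative (ZMod 2)) : Prop :=
  ∀ z : AdelicQuartic θ a F g L, {v | invariantAt χ v ((z v).value (some 1)) ≠ 0}.Finite ∧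
    quarticPairing χ z = Module.finrank k L * invariant χ ψ 1 (Algebra.norm ℚ a)

/-- No adelic point over `L` is orthogonal to `A` and there is no point over `L`. -/
def PlaneEmpty (χ : (ZMod p)ˣ →* Multiplicative (ZMod 2)) : Prop :=
  {z : AdelicPlane θ a c L | planePairing χ z = 0} = ∅ ∧ IsEmpty (Plane θ a c (algebraMap k L))

/-- No adelic point over `L` is orthogonal to `A` and there is no point over `L`. -/
def QuarticEmpty (χ : (ZMod p)ˣ →* Multiplicative (ZMod 2)) : Prop :=
  {z : AdelicQuartic θ a F g L | quarticPairing χ z = 0} = ∅ ∧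
    IsEmpty (Quartic θ a F g (algebraMap k L))

/-- The double plane has points over all completions of `L`. -/
def PlaneSoluble : Prop :=
  Nonempty (AdelicPlane θ a c L) ∧
  ∀ v : MaximalSpectrum (RealAlgebra L),
    Nonempty (Plane θ a c ((realEmbedding v).comp (algebraMap k L)))

/-- The quartic surface has points over all completions of `L`. -/
def QuarticSoluble : Prop :=
  Nonempty (AdelicQuartic θ a F g L) ∧
  ∀ v : MaximalSpectrum (RealAlgebra L),
    Nonempty (Quartic θ a F g ((realEmbedding v).comp (algebraMap k L)))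

/-- The statements on all surfaces over all finite extensions `L` of `k`. -/
def Formulas (χ : (ZMod p)ˣ →* Multiplicative (ZMod 2))
    (ψ : (ZMod q)ˣ →* Multiplicative (ZMod 2)) : Prop :=
  (∀ c, PlaneUnramified θ a c) ∧ (∀ F g, QuarticUnramified θ a F g) ∧
  ∀ (L : Type u) [Field L] [NumberField L] [Algebra k L], Reciprocity χ L ∧
    (∀ c, PlaneFormula θ a c L χ ψ) ∧ (∀ F g, QuarticFormula θ a F g L χ ψ) ∧
    (Obstructed χ ψ a → ¬ 2 ∣ Module.finrank k L →
      (∀ c, PlaneEmpty θ a c L χ) ∧ ∀ F g, QuarticEmpty θ a F g L χ)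

/-- The special double planes and quartics have points over all completions of all finite extensions
of `k`. -/
def Solubility : Prop :=
  ∀ (L : Type u) [Field L] [NumberField L] [Algebra k L],
    (∀ c : Option (ZMod 2) → k[X], PlaneSoluble θ a (special c) L) ∧
    ∀ (g : Option (ZMod 2)) (c : Option (ZMod 2) → k[X]) (M : Fin 4 → k[X]),
      QuarticSoluble θ a (specialQuartic g c M) g L

/-- For all `u_j ∈ k[X]` and all but finitely many `s ∈ k` the six lines
`x + (θ_j² + s u_j(θ_j)) y - θ_j z` are in general position. -/
def GeneralLines (k : Type u) [Field k] [NumberField k] : Prop :=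
  ∀ u : Option (ZMod 2) → k[X], {s : k | ¬ GeneralPosition (fun j => minpoly ℚ (θ j))
    (special fun j => (X : k[X]) ^ 2 + C s * u j)}.Finite

end statements

section existence

/-- There are admissible pairs of quadratic characters modulo arbitrarily large primes. -/
def PairsExist : Prop :=
  ∀ B : ℕ, ∃ (p q : ℕ) (_ : Fact p.Prime) (_ : Fact q.Prime)
    (χ : (ZMod p)ˣ →* Multiplicative (ZMod 2)) (ψ : (ZMod q)ˣ →* Multiplicative (ZMod 2)),
    B < p ∧ B < q ∧ Admissible χ ψ

variable {p q : ℕ} [Fact p.Prime] [Fact q.Prime] (χ : (ZMod p)ˣ →* Multiplicative (ZMod 2))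
  (ψ : (ZMod q)ˣ →* Multiplicative (ZMod 2))

/-- The element `θ_i` generates the field of the character with index `i`. -/
def Generators (θ : Option (ZMod 2) → CyclotomicField (p * q) ℚ) : Prop :=
  ∀ i, IsGenerator χ ψ (coefficients i).1 (coefficients i).2 (θ i)

/-- Half of the natural numbers are obstructed over `k`. -/
def Density (k : Type u) [Field k] [NumberField k] : Prop :=
  Filter.Tendsto (fun N : ℕ =>
    (Nat.card {b : ℕ // 1 ≤ b ∧ b ≤ N ∧ ¬ Obstructed χ ψ (b : k)} : ℝ) / (N : ℝ))
    Filter.atTop (nhds (1 / 2 : ℝ))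

end existence

/-- Let `(χ, ψ)` be an admissible pair of quadratic characters modulo `p`, `q`, let `θ_j` be
generators of the three quadratic fields, `k` a number field and `a ∈ k^*`.  For all double planes
`a w² = ∏_j N_j(L_j)` and all quartic surfaces `∏_{j ≠ g} N_j(F_j) = a N_g(F_g)` the class `A` is
unramified and its pairing with every adelic point over every finite extension `L` of `k` is `[L : k]`
times the invariant of `N(a)`.  If `a` is obstructed and `[L : k]` is odd, then no adelic point over
`L` is orthogonal to `A` and there are no points over `L`.  The special surfaces have points over all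
completions, and general position holds for almost all members of the families.  Admissible pairs and
generators exist, and over number fields of odd degree half of all natural numbers are obstructed. -/
theorem result :
    (∀ (p q : ℕ) [Fact p.Prime] [Fact q.Prime]
        (χ : (ZMod p)ˣ →* Multiplicative (ZMod 2)) (ψ : (ZMod q)ˣ →* Multiplicative (ZMod 2))
        (θ : Option (ZMod 2) → CyclotomicField (p * q) ℚ) (k : Type u) [Field k] [NumberField k]
        (a : k), Admissible χ ψ → Generators χ ψ θ → a ≠ 0 →
      Formulas θ a χ ψ ∧ Solubility θ a ∧ GeneralLines θ k) ∧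
    PairsExist ∧
    ∀ (p q : ℕ) [Fact p.Prime] [Fact q.Prime]
      (χ : (ZMod p)ˣ →* Multiplicative (ZMod 2)) (ψ : (ZMod q)ˣ →* Multiplicative (ZMod 2)),
      Admissible χ ψ → (∃ θ, Generators χ ψ θ) ∧
      ∀ (k : Type u) [Field k] [NumberField k], ¬ 2 ∣ Module.finrank ℚ k → Density χ ψ k := by
  classical
  have : Fact (Nat.Prime 2) := ⟨Nat.prime_two⟩
  have hgood : ∀ (p q : ℕ) [Fact p.Prime] [Fact q.Prime]
      (χ : (ZMod p)ˣ →* Multiplicative (ZMod 2)) (ψ : (ZMod q)ˣ →* Multiplicative (ZMod 2)),
      Admissible χ ψ → Pool.Agent.K3h48.MN.Good χ ψ := by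
    intro p q _ _ χ ψ h
    exact ⟨h.ne, h.surjective_left, h.surjective_right,
      Pool.Agent.K3h48.MN.ind_pow_zero χ h.q_power, Pool.Agent.K3h48.MN.ind_pow_zero ψ h.p_power,
      Pool.Agent.K3h48.MN.ind_pow_zero χ h.neg_power_left,
      Pool.Agent.K3h48.MN.ind_pow_zero ψ h.neg_power_right⟩
  have hlib := Pool.Agent.Results.MP_308fa9_nt.SuperellipticBrauerSets.result.{u}
  refine ⟨?_, hlib.2.1 2, fun p q _ _ χ ψ hadm =>
    ⟨(hlib.2.2 2 p q χ ψ hadm).1, fun k _ _ hk => ?_⟩⟩
  swap
  · have h := Pool.Agent.K3h48.MN.obs_density (hgood p q χ ψ hadm) hk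
    have h2 : ((2 : ℕ) : ℝ) ^ (2 - 1) = 2 := by norm_num
    rw [h2] at h
    rw [Density, one_div]
    exact h
  intro p q _ _ χ ψ θ k _ _ a hadm hθ ha
  have hG := hgood p q χ ψ hadm
  have hθ' : ∀ i, Pool.Agent.K3h48.MN.GenBy χ ψ (Pool.Agent.K3h48.MN.cs i).1
      (Pool.Agent.K3h48.MN.cs i).2 (θ i) := by
    intro i
    cases i with
    | none => exact hθ none
    | some j => exact hθ (some j)
  have hneg : (-(1 : ZMod 2)) = 1 := two_neg
  have hone : (1 : ZMod 2) ≠ 0 := two_ne
  -- the general statement on adelic points
  have key : ∀ {σ : Type} (F : Option (ZMod 2) → MvPolynomial σ k[X]) (L : Type u) [Field L]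
      [NumberField L] [Algebra k L] (z : ∀ v : FinitePlace L, Point 2 a
        (fun j => minpoly ℚ (θ j)) F ((embedding v).comp (algebraMap k L))),
      {v | invariantAt χ v ((z v).value (some 1)) ≠ 0}.Finite ∧
      ∑ᶠ v, invariantAt χ v ((z v).value (some 1)) =
        Module.finrank k L * invariant χ ψ 1 (Algebra.norm ℚ a) := by
    intro σ F L _ _ _ z
    have h := adelic_sum hG hθ' ha L z hone
    rw [hneg] at h
    exact h
  have hobs1 : Obstructed χ ψ a → invariant χ ψ 1 (Algebra.norm ℚ a) ≠ 0 := by
    rintro ⟨m, hm, h⟩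
    have hm1 : m = 1 := two_eq m hm
    rwa [hm1] at h
  refine ⟨⟨?_, ?_, ?_⟩, ?_, fun u => general_position hG hθ' u⟩
  · intro c O K _ _ _ _ _ _ _ _ _ z
    exact unramified (O := O) hG hθ' ha z (some 1) none
  · intro F g O K _ _ _ _ _ _ _ _ _ z
    exact unramified (O := O) hG hθ' ha z.toPoint (some 1) none
  · intro L _ _ _
    refine ⟨reciprocity hG L, fun c z => key _ L z, fun F g z => key _ L fun v => (z v).toPoint,
      fun hobs hL => ?_⟩
    have h2 : ((Module.finrank k L : ℕ) : ZMod 2) ≠ 0 := by
      rwa [Ne, ZMod.natCast_eq_zero_iff]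
    have h3 := mul_ne_zero h2 (hobs1 hobs)
    refine ⟨fun c => ⟨?_, ?_⟩, fun F g => ⟨?_, ?_⟩⟩
    · refine Set.eq_empty_of_forall_notMem fun z hz => ?_
      exact h3 ((key _ L z).2.symm.trans hz)
    · exact ⟨fun z => hL (degree_dvd hG hθ' hobs L z)⟩
    · refine Set.eq_empty_of_forall_notMem fun z hz => ?_
      exact h3 ((key _ L fun v => (z v).toPoint).2.symm.trans hz)
    · exact ⟨fun z => hL (degree_dvd hG hθ' hobs L z.toPoint)⟩
  · intro L _ _ _
    refine ⟨fun c => ⟨⟨fun v => ?_⟩, fun v => ?_⟩, fun g c M => ⟨⟨fun v => ?_⟩, fun v => ?_⟩⟩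
    · refine Nonempty.some ?_
      obtain ⟨x, rfl⟩ := (placeEquiv L).surjective v
      have h : Nonempty (PlanePoint a (fun j => minpoly ℚ (θ j)) (special c)
          ((Pool.Agent.K3h48.BM.emb x.2).comp (algebraMap k L))) :=
        plane_point (E := Pool.Agent.K3h48.BM.Comp x.2) hG hθ' ha c _
          (Or.inl ⟨(x.1 : ℕ), inferInstance, inferInstance, inferInstance⟩)
      exact h
    · have h : Nonempty (PlanePoint a (fun j => minpoly ℚ (θ j)) (special c)
          ((Pool.Agent.K3h48.BM.emb (K := ℝ) (k := L) v).comp (algebraMap k L))) :=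
        plane_point (E := Pool.Agent.K3h48.BM.Comp (K := ℝ) (k := L) v) hG hθ' ha c _
          (Or.inr ⟨inferInstance, inferInstance⟩)
      exact h
    · refine Nonempty.some ?_
      obtain ⟨x, rfl⟩ := (placeEquiv L).surjective v
      have h : Nonempty (QuarticPoint a (fun j => minpoly ℚ (θ j)) (specialQuartic g c M) g
          ((Pool.Agent.K3h48.BM.emb x.2).comp (algebraMap k L))) :=
        quartic_point (E := Pool.Agent.K3h48.BM.Comp x.2) hG hθ' ha g c M _
          (Or.inl ⟨(x.1 : ℕ), inferInstance, inferInstance, inferInstance⟩)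
      exact h
    · have h : Nonempty (QuarticPoint a (fun j => minpoly ℚ (θ j)) (specialQuartic g c M) g
          ((Pool.Agent.K3h48.BM.emb (K := ℝ) (k := L) v).comp (algebraMap k L))) :=
        quartic_point (E := Pool.Agent.K3h48.BM.Comp (K := ℝ) (k := L) v) hG hθ' ha g c M _
          (Or.inr ⟨inferInstance, inferInstance⟩)
      exact h

end Pool.Agent.Results.MP_ed3816_nt.NormK3Surfaces
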